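import Mathlib

/-!
DB70: digit boxes inside a set with bounded representation function are thin.
-/

set_option autoImplicit false

namespace Pool.Agent.DB70

open Finset

variable {k m t : ℕ}

/-- the number whose base `k` digits are `f 0, f 1, ..., f (m-1)` (least significant first) -/
def val (f : Fin m → Fin k) : ℕ := ∑ i, (f i : ℕ) * k ^ (i : ℕ)

/-- A box for the colouring `col` of the digit positions: a set of digit vectors closed under
exchanging the digits on one colour class, that is, a product set. -/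
def IsBox (col : Fin m → Fin t) (B : Set (Fin m → Fin k)) : Prop :=
  ∀ f ∈ B, ∀ g ∈ B, ∀ j, (fun i => if col i = j then g i else f i) ∈ B

theorem val_eq (f : Fin m → Fin k) : val f = (finFunctionFinEquiv f : ℕ) := by
  rw [finFunctionFinEquiv_apply]
  rfl

theorem val_injective : Function.Injective (val : (Fin m → Fin k) → ℕ) := by
  intro f g h
  rw [val_eq, val_eq] at h
  exact finFunctionFinEquiv.injective (Fin.ext h)

theorem val_lt (f : Fin m → Fin k) : val f < k ^ m := by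
  rw [val_eq]
  exact (finFunctionFinEquiv f).2

theorem exists_val {n : ℕ} (hn : n < k ^ m) : ∃ f : Fin m → Fin k, val f = n :=
  ⟨finFunctionFinEquiv.symm ⟨n, hn⟩, by rw [val_eq, Equiv.apply_symm_apply]⟩

/-- a box is a product set -/
theorem IsBox.mix {col : Fin m → Fin t} {B : Set (Fin m → Fin k)} (hB : IsBox col B)
    {z : Fin m → Fin k} (hz : z ∈ B) (h : Fin t → Fin m → Fin k) (S : Finset (Fin t))
    (hh : ∀ j ∈ S, h j ∈ B) : (fun i => if col i ∈ S then h (col i) i else z i) ∈ B := by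
  classical
  induction S using Finset.induction_on with
  | empty => simpa using hz
  | insert j S hj ih =>
    have h1 := hB _ (ih fun j' hj' => hh j' (mem_insert_of_mem hj')) _
      (hh j (mem_insert_self j S)) j
    convert h1 using 1
    funext i
    by_cases hi : col i = j
    · subst hi
      simp
    · simp [hi]

/-- A box inside a set with representation function at most `C` has at most
`k ^ (ℓ log₂ C)` elements. -/
theorem box_card (hk : 0 < k) {A : Set ℕ} {C : ℕ}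
    (hr : ∀ n : ℕ, {p : ℕ × ℕ | p.1 ∈ A ∧ p.2 ∈ A ∧ p.1 + p.2 = n}.ncard ≤ C)
    (col : Fin m → Fin t) (ℓ : ℕ) (hl : ∀ j, (univ.filter fun i => col i = j).card ≤ ℓ)
    (B : Set (Fin m → Fin k)) (hB : IsBox col B) (hBA : ∀ f ∈ B, val f ∈ A) :
    B.ncard ≤ k ^ (ℓ * Nat.log 2 C) := by
  classical
  rcases Set.eq_empty_or_nonempty B with rfl | ⟨z, hz⟩
  · simp
  let J : Finset (Fin t) := univ.filter fun j => ∃ x ∈ B, ∃ y ∈ B, ∃ i, col i = j ∧ x i ≠ y i
  have hJ : ∀ j, ∃ x y : Fin m → Fin k, x ∈ B ∧ y ∈ B ∧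
      (j ∈ J → ∃ i, col i = j ∧ x i ≠ y i) := by
    intro j
    by_cases hj : j ∈ J
    · obtain ⟨x, hx, y, hy, i, h1, h2⟩ := (mem_filter.1 hj).2
      exact ⟨x, y, hx, hy, fun _ => ⟨i, h1, h2⟩⟩
    · exact ⟨z, z, hz, hz, fun h => absurd h hj⟩
  choose x y hx hy hxy using hJ
  let w : Finset (Fin t) → Fin m → Fin k := fun S i =>
    if col i ∈ J then (if col i ∈ S then x (col i) i else y (col i) i) else z i
  have hw : ∀ S, w S ∈ B := by
    intro S
    have h1 := hB.mix hz (fun j i => if j ∈ S then x j i else y j i) J (by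
      intro j _
      by_cases hj : j ∈ S
      · simpa [hj] using hx j
      · simpa [hj] using hy j)
    exact h1
  let n : ℕ := ∑ i : Fin m, (if col i ∈ J then ((x (col i) i : ℕ) + y (col i) i)
    else 2 * (z i : ℕ)) * k ^ (i : ℕ)
  have hn : ∀ S ⊆ J, val (w S) + val (w (J \ S)) = n := by
    intro S hS
    rw [val, val, ← sum_add_distrib]
    refine sum_congr rfl fun i _ => ?_
    rw [← add_mul]
    congr 1
    by_cases h1 : col i ∈ J
    · by_cases h2 : col i ∈ S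
      · simp [w, h1, h2]
      · simp [w, h1, h2, add_comm]
    · simp [w, h1, two_mul]
  have hinj : Set.InjOn (fun S => (val (w S), val (w (J \ S)))) (J.powerset : Set _) := by
    intro S hS T hT hST
    have h1 : w S = w T := val_injective (Prod.ext_iff.1 hST).1
    have key : ∀ S T : Finset (Fin t), S ⊆ J → w S = w T → S ⊆ T := by
      intro S T hS h j hj
      by_contra hjT
      obtain ⟨i, hi, hne⟩ := hxy j (hS hj)
      have h2 := congrFun h i
      simp only [w, hi, hS hj, hj, hjT, if_true, if_false] at h2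
      exact hne h2
    exact Subset.antisymm (key S T (mem_powerset.1 (mem_coe.1 hS)) h1)
      (key T S (mem_powerset.1 (mem_coe.1 hT)) h1.symm)
  have h2 : 2 ^ J.card ≤ C := by
    refine le_trans ?_ (hr n)
    have h3 : ((fun S => (val (w S), val (w (J \ S)))) '' (J.powerset : Set _)).ncard
        = 2 ^ J.card := by
      rw [hinj.ncard_image, Set.ncard_coe_finset, card_powerset]
    rw [← h3]
    refine Set.ncard_le_ncard ?_ ?_
    · rintro _ ⟨S, hS, rfl⟩
      exact ⟨hBA _ (hw _), hBA _ (hw _), hn S (mem_powerset.1 (mem_coe.1 hS))⟩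
    · refine (antidiagonal n).finite_toSet.subset ?_
      rintro p ⟨_, _, hp⟩
      exact mem_coe.2 (mem_antidiagonal.2 hp)
  have h4 : J.card ≤ Nat.log 2 C := Nat.le_log_of_pow_le one_lt_two h2
  let I : Finset (Fin m) := univ.filter fun i => col i ∈ J
  have hI : I.card ≤ ℓ * Nat.log 2 C := by
    have h5 : I.card ≤ ∑ j ∈ J, (univ.filter fun i => col i = j).card := by
      have h6 : I = J.biUnion fun j => univ.filter fun i => col i = j := by
        ext i
        simp [I]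
      rw [h6]
      exact card_biUnion_le
    calc I.card ≤ ∑ j ∈ J, (univ.filter fun i => col i = j).card := h5
      _ ≤ ∑ _j ∈ J, ℓ := sum_le_sum fun j _ => hl j
      _ = J.card * ℓ := by rw [sum_const, smul_eq_mul]
      _ ≤ Nat.log 2 C * ℓ := Nat.mul_le_mul_right _ h4
      _ = ℓ * Nat.log 2 C := mul_comm _ _
  have h7 : B.ncard ≤ k ^ I.card := by
    let φ : (Fin m → Fin k) → (I → Fin k) := fun f i => f i.1
    have h8 : Set.InjOn φ B := by
      intro f hf g hg hfg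
      funext i
      by_cases hi : col i ∈ J
      · exact congrFun hfg ⟨i, mem_filter.2 ⟨mem_univ _, hi⟩⟩
      · by_contra hne
        exact hi (mem_filter.2 ⟨mem_univ _, f, hf, g, hg, i, rfl, hne⟩)
    have h9 : B.ncard ≤ (Set.univ : Set (I → Fin k)).ncard :=
      Set.ncard_le_ncard_of_injOn φ (fun _ _ => Set.mem_univ _) h8
    rw [Set.ncard_univ, Nat.card_eq_fintype_card, Fintype.card_fun, Fintype.card_coe,
      Fintype.card_fin] at h9
    exact h9
  exact h7.trans (Nat.pow_le_pow_right hk hI)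

/-- the number of elements below `k ^ m` -/
theorem cover_card (hk : 0 < k) {A : Set ℕ} {C : ℕ}
    (hr : ∀ n : ℕ, {p : ℕ × ℕ | p.1 ∈ A ∧ p.2 ∈ A ∧ p.1 + p.2 = n}.ncard ≤ C)
    (ℓ R : ℕ) (col : Fin R → Fin m → Fin t)
    (hl : ∀ r j, (univ.filter fun i => col r i = j).card ≤ ℓ)
    (B : Fin R → Set (Fin m → Fin k)) (hB : ∀ r, IsBox (col r) (B r))
    (hBA : ∀ r, ∀ f ∈ B r, val f ∈ A) (hcov : ∀ f : Fin m → Fin k, val f ∈ A → ∃ r, f ∈ B r) :
    (A ∩ Set.Iio (k ^ m)).ncard ≤ R * k ^ (ℓ * Nat.log 2 C) := by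
  classical
  have h1 : (A ∩ Set.Iio (k ^ m)) ⊆ val '' (⋃ r, B r) := by
    rintro n ⟨hn, hn'⟩
    obtain ⟨f, rfl⟩ := exists_val (k := k) (m := m) hn'
    obtain ⟨r, hr'⟩ := hcov f hn
    exact ⟨f, Set.mem_iUnion.2 ⟨r, hr'⟩, rfl⟩
  calc (A ∩ Set.Iio (k ^ m)).ncard ≤ (val '' (⋃ r, B r)).ncard :=
        Set.ncard_le_ncard h1 (Set.toFinite _)
    _ ≤ (⋃ r, B r).ncard := Set.ncard_image_le (Set.toFinite _)
    _ ≤ ∑ r, (B r).ncard := Set.ncard_iUnion_le_of_fintype _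
    _ ≤ ∑ _r : Fin R, k ^ (ℓ * Nat.log 2 C) :=
        sum_le_sum fun r _ => box_card hk hr (col r) ℓ (hl r) (B r) (hB r) (hBA r)
    _ = R * k ^ (ℓ * Nat.log 2 C) := by
        rw [sum_const, card_univ, Fintype.card_fin, smul_eq_mul]

/-- the sumset below `N` is covered by pairs -/
theorem sum_card (A : Set ℕ) (N : ℕ) :
    ({n : ℕ | ∃ a ∈ A, ∃ b ∈ A, a + b = n} ∩ Set.Iio N).ncard ≤ (A ∩ Set.Iio N).ncard ^ 2 := by
  have hf : (A ∩ Set.Iio N).Finite := (Set.finite_Iio N).inter_of_right _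
  have h1 : ({n : ℕ | ∃ a ∈ A, ∃ b ∈ A, a + b = n} ∩ Set.Iio N) ⊆
      (fun p : ℕ × ℕ => p.1 + p.2) '' ((A ∩ Set.Iio N) ×ˢ (A ∩ Set.Iio N)) := by
    rintro n ⟨⟨a, ha, b, hb, rfl⟩, hn⟩
    have hn' : a + b < N := hn
    exact ⟨(a, b), ⟨⟨ha, show a < N by omega⟩, ⟨hb, show b < N by omega⟩⟩, rfl⟩
  refine (Set.ncard_le_ncard h1 ((hf.prod hf).image _)).trans ?_
  refine (Set.ncard_image_le (hf.prod hf)).trans ?_
  rw [Set.ncard_prod, sq]

theorem main (hk : 2 ≤ k) {A : Set ℕ} {C : ℕ}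
    (hr : ∀ n : ℕ, {p : ℕ × ℕ | p.1 ∈ A ∧ p.2 ∈ A ∧ p.1 + p.2 = n}.ncard ≤ C)
    {δ : ℝ} (hδ : 0 < δ) {N₀ : ℕ} (hd : ∀ N : ℕ, N₀ ≤ N → δ * (N : ℝ) ≤
      (({n : ℕ | ∃ a ∈ A, ∃ b ∈ A, a + b = n} ∩ Set.Iio N).ncard : ℝ))
    (hm : N₀ ≤ m) (ℓ R : ℕ) (col : Fin R → Fin m → Fin t)
    (hl : ∀ r j, (univ.filter fun i => col r i = j).card ≤ ℓ)
    (B : Fin R → Set (Fin m → Fin k)) (hB : ∀ r, IsBox (col r) (B r))
    (hBA : ∀ r, ∀ f ∈ B r, val f ∈ A) (hcov : ∀ f : Fin m → Fin k, val f ∈ A → ∃ r, f ∈ B r) :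
    Real.sqrt δ * (k : ℝ) ^ ((m : ℝ) / 2 - (ℓ : ℝ) * (Nat.log 2 C : ℝ)) ≤ R := by
  have hk0 : (0 : ℝ) < k := by
    have : 0 < k := by omega
    exact_mod_cast this
  have h1 := cover_card (by omega) hr ℓ R col hl B hB hBA hcov
  have hNm : N₀ ≤ k ^ m := hm.trans (Nat.lt_pow_self (by omega)).le
  have h2 := hd (k ^ m) hNm
  have h3 : (({n : ℕ | ∃ a ∈ A, ∃ b ∈ A, a + b = n} ∩ Set.Iio (k ^ m)).ncard : ℝ) ≤
      ((R : ℝ) * (k : ℝ) ^ (ℓ * Nat.log 2 C)) ^ 2 := by
    have h4 := (sum_card A (k ^ m)).trans (Nat.pow_le_pow_left h1 2)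
    exact_mod_cast h4
  have h5 : δ * (k : ℝ) ^ m ≤ ((R : ℝ) * (k : ℝ) ^ (ℓ * Nat.log 2 C)) ^ 2 := by
    refine le_trans ?_ h3
    exact_mod_cast h2
  have h6 : Real.sqrt δ * (k : ℝ) ^ ((m : ℝ) / 2) ≤ (R : ℝ) * (k : ℝ) ^ (ℓ * Nat.log 2 C) := by
    have h7 : Real.sqrt (δ * (k : ℝ) ^ m) ≤ (R : ℝ) * (k : ℝ) ^ (ℓ * Nat.log 2 C) := by
      rw [← Real.sqrt_sq (by positivity : (0 : ℝ) ≤ (R : ℝ) * (k : ℝ) ^ (ℓ * Nat.log 2 C))]
      exact Real.sqrt_le_sqrt h5
    rw [Real.sqrt_mul hδ.le] at h7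
    have h8 : Real.sqrt ((k : ℝ) ^ m) = (k : ℝ) ^ ((m : ℝ) / 2) := by
      rw [Real.sqrt_eq_rpow, ← Real.rpow_natCast, ← Real.rpow_mul hk0.le]
      congr 1
      ring
    rwa [h8] at h7
  have h9 : (k : ℝ) ^ ((ℓ : ℝ) * (Nat.log 2 C : ℝ)) = (k : ℝ) ^ (ℓ * Nat.log 2 C) := by
    rw [← Real.rpow_natCast]
    congr 1
    push_cast
    ring
  rw [Real.rpow_sub hk0, h9, ← mul_div_assoc, div_le_iff₀ (by positivity)]
  exact h6

end Pool.Agent.DB70
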