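import Pool.Agent.DB70.Box

/-!
DB70: circuits with union and sum gates (Minkowski circuits), sharp exponent.  `Big T b Z`: `Z` contains a
sum of `b` sets with more than `T` elements each.  For `T ≥ C ^ 2` and representation function at most `C`
one has `2 ^ b ≤ C` (`Big.reps`).  A set computed by a circuit with `s` gates for which `Big T (b + 1)` fails
has at most `T (2 4^b T² s) ^ b` elements (`fam_card`): go down from the output to the last gate `p` whose
set has more than `T` elements; the contexts of `p` are computed by a circuit with `4 s` gates (`der`), and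
`Big T b` fails for them.
-/

set_option autoImplicit false
set_option linter.unusedVariables false

namespace Pool.Agent.DB70

open Finset Pointwise

/-- `Z` contains a sum of `b` sets with more than `T` elements each -/
def Big (T : ℕ) : ℕ → Finset ℕ → Prop
  | 0, Z => Z.Nonempty
  | b + 1, Z => ∃ V W : Finset ℕ, T < V.card ∧ Big T b W ∧ V + W ⊆ Z

theorem Big.add_left {T b y : ℕ} {Z X : Finset ℕ} (h : Big T b Z) (hy : ∀ z ∈ Z, y + z ∈ X) :
    Big T b X := by
  cases b with
  | zero =>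
    obtain ⟨z, hz⟩ := h
    exact ⟨y + z, hy z hz⟩
  | succ b =>
    obtain ⟨V, W, h1, h2, h3⟩ := h
    refine ⟨V.image (fun v => y + v), W, ?_, h2, ?_⟩
    · rwa [card_image_of_injective _ (add_right_injective y)]
    · intro x hx
      obtain ⟨v', hv', w, hw, rfl⟩ := mem_add.1 hx
      obtain ⟨v, hv, rfl⟩ := mem_image.1 hv'
      have h4 := hy (v + w) (h3 (add_mem_add hv hw))
      rwa [← add_assoc] at h4

theorem Big.pred {T b : ℕ} {Z : Finset ℕ} (h : Big T (b + 1) Z) : Big T b Z := by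
  obtain ⟨V, W, h1, h2, h3⟩ := h
  obtain ⟨v, hv⟩ : V.Nonempty := card_pos.1 (by omega)
  exact h2.add_left (y := v) fun w hw => h3 (add_mem_add hv hw)

theorem Big.le {T b b' : ℕ} {Z : Finset ℕ} (hb : b' ≤ b) (h : Big T b Z) : Big T b' Z := by
  induction hb with
  | refl => exact h
  | step _ ih => exact ih h.pred

theorem Big.add {T a b : ℕ} {V W X : Finset ℕ} (hV : Big T a V) (hW : Big T b W)
    (h : ∀ v ∈ V, ∀ w ∈ W, v + w ∈ X) : Big T (a + b) X := by
  induction a generalizing V X with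
  | zero =>
    obtain ⟨v, hv⟩ := hV
    rw [zero_add]
    exact hW.add_left (y := v) fun w hw => h v hv w hw
  | succ a ih =>
    obtain ⟨V₁, V₂, h1, h2, h3⟩ := hV
    have h4 := ih (X := V₂ + W) h2 fun v hv w hw => add_mem_add hv hw
    have e : a + 1 + b = a + b + 1 := by omega
    rw [e]
    refine ⟨V₁, V₂ + W, h1, h4, ?_⟩
    intro x hx
    obtain ⟨v₁, hv₁, u, hu, rfl⟩ := mem_add.1 hx
    obtain ⟨v₂, hv₂, w, hw, rfl⟩ := mem_add.1 hu
    rw [← add_assoc]
    exact h _ (h3 (add_mem_add hv₁ hv₂)) w hw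

theorem exists_dim {T : ℕ} {Z : Finset ℕ} (hZ : Z.Nonempty) (b : ℕ) (h : ¬ Big T (b + 1) Z) :
    ∃ a ≤ b, Big T a Z ∧ ¬ Big T (a + 1) Z := by
  induction b with
  | zero => exact ⟨0, le_rfl, hZ, h⟩
  | succ b ih =>
    by_cases h1 : Big T (b + 1) Z
    · exact ⟨b + 1, le_rfl, h1, h⟩
    · obtain ⟨a, ha, h2⟩ := ih h1
      exact ⟨a, by omega, h2⟩

/-- a sum of `b` large sets has `2 ^ b` representations of one number -/
theorem Big.reps {T b : ℕ} {Z : Finset ℕ} (h : Big T b Z) (hT : ∀ b' < b, 4 ^ b' ≤ T) :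
    ∃ (n : ℕ) (P : Finset ℕ), P.card = 2 ^ b ∧ ∀ x ∈ P, x ∈ Z ∧ ∃ x' ∈ Z, x + x' = n := by
  classical
  induction b generalizing Z with
  | zero =>
    obtain ⟨x, hx⟩ := h
    refine ⟨x + x, {x}, by simp, ?_⟩
    intro z hz
    rw [mem_singleton] at hz
    subst hz
    exact ⟨hx, z, hx, rfl⟩
  | succ b ih =>
    obtain ⟨V, W, h1, h2, h3⟩ := h
    obtain ⟨n, P, hPc, hP⟩ := ih h2 fun b' hb' => hT b' (by omega)
    obtain ⟨v, hv⟩ : V.Nonempty := card_pos.1 (by omega)
    have h4 : ((P ×ˢ P).image (fun q : ℕ × ℕ => v + q.1 - q.2)).card < V.card := by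
      refine lt_of_le_of_lt (card_image_le.trans ?_) h1
      rw [card_product, hPc, ← pow_add, ← two_mul, pow_mul]
      exact hT b (by omega)
    obtain ⟨v', hv', hne⟩ := exists_mem_notMem_of_card_lt_card h4
    have hdis : Disjoint (P.image (fun z => v + z)) (P.image (fun z => v' + z)) := by
      rw [disjoint_left]
      intro x hx hx'
      obtain ⟨p, hp, rfl⟩ := mem_image.1 hx
      obtain ⟨p', hp', e⟩ := mem_image.1 hx'
      exact hne (mem_image.2 ⟨(p, p'), mem_product.2 ⟨hp, hp'⟩, by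
        show v + p - p' = v'
        omega⟩)
    refine ⟨n + v + v', P.image (fun z => v + z) ∪ P.image (fun z => v' + z), ?_, ?_⟩
    · rw [card_union_of_disjoint hdis, card_image_of_injective _ (add_right_injective v),
        card_image_of_injective _ (add_right_injective v'), hPc, pow_succ]
      ring
    · intro x hx
      rcases mem_union.1 hx with hx | hx
      · obtain ⟨z, hz, rfl⟩ := mem_image.1 hx
        obtain ⟨hz1, z', hz', e⟩ := hP z hz
        exact ⟨h3 (add_mem_add hv hz1), v' + z', h3 (add_mem_add hv' hz'), by omega⟩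
      · obtain ⟨z, hz, rfl⟩ := mem_image.1 hx
        obtain ⟨hz1, z', hz', e⟩ := hP z hz
        exact ⟨h3 (add_mem_add hv' hz1), v + z', h3 (add_mem_add hv hz'), by omega⟩

/-- a circuit with gates `i`, sets `S i` and rank `rk` -/
structure Fam (ι : Type) where
  rk : ι → ℕ
  S : ι → Finset ℕ
  t : ι → ℕ
  u : ι → ι
  w : ι → ι
  leaf : ∀ i, t i = 0 → (S i).card ≤ 1
  un : ∀ i, t i = 1 → rk (u i) < rk i ∧ rk (w i) < rk i ∧ S i = S (u i) ∪ S (w i)
  sm : ∀ i, 2 ≤ t i → rk (u i) < rk i ∧ rk (w i) < rk i ∧ S i = S (u i) + S (w i)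

theorem exists_fam {ι : Type} (rk : ι → ℕ) (S : ι → Finset ℕ)
    (h : ∀ i, (S i).card ≤ 1 ∨ ∃ j k, rk j < rk i ∧ rk k < rk i ∧
      (S i = S j ∪ S k ∨ S i = S j + S k)) : ∃ F : Fam ι, F.rk = rk ∧ F.S = S := by
  have h' : ∀ i, ∃ (t : ℕ) (j k : ι), (t = 0 → (S i).card ≤ 1) ∧
      (t = 1 → rk j < rk i ∧ rk k < rk i ∧ S i = S j ∪ S k) ∧
      (2 ≤ t → rk j < rk i ∧ rk k < rk i ∧ S i = S j + S k) := by
    intro i
    rcases h i with h | ⟨j, k, hj, hk, h | h⟩
    · exact ⟨0, i, i, fun _ => h, fun h => by omega, fun h => by omega⟩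
    · exact ⟨1, j, k, fun h => by omega, fun _ => ⟨hj, hk, h⟩, fun h => by omega⟩
    · exact ⟨2, j, k, fun h => by omega, fun h => by omega, fun _ => ⟨hj, hk, h⟩⟩
  choose t u w h1 h2 h3 using h'
  exact ⟨⟨rk, S, t, u, w, h1, h2, h3⟩, rfl, rfl⟩

variable {ι : Type}

open Classical in
/-- the contexts of the gate `p` derived at the gate `i` -/
noncomputable def der (F : Fam ι) (p : ι) (i : ι) : Finset ℕ :=
  if i = p then {0}
  else if h1 : F.t i = 1 then der F p (F.u i) ∪ der F p (F.w i)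
  else if h2 : 2 ≤ F.t i then
    (der F p (F.u i) + F.S (F.w i)) ∪ (F.S (F.u i) + der F p (F.w i))
  else ∅
termination_by F.rk i
decreasing_by
  · exact (F.un i h1).1
  · exact (F.un i h1).2.1
  · exact (F.sm i h2).1
  · exact (F.sm i h2).2.1

theorem der_self (F : Fam ι) (p : ι) : der F p p = {0} := by
  rw [der, if_pos rfl]

theorem der_un (F : Fam ι) {p i : ι} (hi : i ≠ p) (h : F.t i = 1) :
    der F p i = der F p (F.u i) ∪ der F p (F.w i) := by
  rw [der, if_neg hi, dif_pos h]

theorem der_sm (F : Fam ι) {p i : ι} (hi : i ≠ p) (h : 2 ≤ F.t i) :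
    der F p i = (der F p (F.u i) + F.S (F.w i)) ∪ (F.S (F.u i) + der F p (F.w i)) := by
  rw [der, if_neg hi, dif_neg (by omega), dif_pos h]

theorem der_leaf (F : Fam ι) {p i : ι} (hi : i ≠ p) (h : F.t i = 0) : der F p i = ∅ := by
  rw [der, if_neg hi, dif_neg (by omega), dif_neg (by omega)]

/-- a derived context is a context, and it lives at a gate of rank at least that of `p` -/
theorem der_mem (F : Fam ι) (p : ι) : ∀ (n : ℕ) (i : ι), F.rk i = n → ∀ y ∈ der F p i,
    F.rk p ≤ F.rk i ∧ ∀ z ∈ F.S p, y + z ∈ F.S i := by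
  intro n
  induction n using Nat.strong_induction_on with
  | _ n ih =>
  intro i hi y hy
  by_cases hip : i = p
  · subst hip
    rw [der_self, mem_singleton] at hy
    subst hy
    exact ⟨le_rfl, fun z hz => by rwa [zero_add]⟩
  rcases Nat.lt_or_ge (F.t i) 2 with ht | ht
  · rcases Nat.eq_zero_or_pos (F.t i) with h0 | h0
    · rw [der_leaf F hip h0] at hy
      exact absurd hy (notMem_empty y)
    · have h1 : F.t i = 1 := by omega
      obtain ⟨r1, r2, e⟩ := F.un i h1
      rw [der_un F hip h1, mem_union] at hy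
      rcases hy with hy | hy
      · obtain ⟨a1, a2⟩ := ih _ (by omega) _ rfl y hy
        exact ⟨by omega, fun z hz => by rw [e]; exact mem_union_left _ (a2 z hz)⟩
      · obtain ⟨a1, a2⟩ := ih _ (by omega) _ rfl y hy
        exact ⟨by omega, fun z hz => by rw [e]; exact mem_union_right _ (a2 z hz)⟩
  · obtain ⟨r1, r2, e⟩ := F.sm i ht
    rw [der_sm F hip ht, mem_union] at hy
    rcases hy with hy | hy
    · obtain ⟨y', hy', b, hb, rfl⟩ := mem_add.1 hy
      obtain ⟨a1, a2⟩ := ih _ (by omega) _ rfl y' hy'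
      refine ⟨by omega, fun z hz => ?_⟩
      have e2 : y' + b + z = y' + z + b := by omega
      rw [e, e2]
      exact add_mem_add (a2 z hz) hb
    · obtain ⟨a, ha, y', hy', rfl⟩ := mem_add.1 hy
      obtain ⟨a1, a2⟩ := ih _ (by omega) _ rfl y' hy'
      refine ⟨by omega, fun z hz => ?_⟩
      rw [e, add_assoc]
      exact add_mem_add ha (a2 z hz)

open Classical in
/-- the small part of a gate -/
noncomputable def sml (F : Fam ι) (T : ℕ) (p : ι) : Finset ℕ :=
  if F.t p = 1 then (if (F.S (F.u p)).card ≤ T then F.S (F.u p) else ∅) ∪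
    (if (F.S (F.w p)).card ≤ T then F.S (F.w p) else ∅)
  else if 2 ≤ F.t p ∧ (F.S (F.u p)).card ≤ T ∧ (F.S (F.w p)).card ≤ T then F.S p else ∅

theorem sml_card (F : Fam ι) {T : ℕ} (hT : 1 ≤ T) (p : ι) : (sml F T p).card ≤ 2 * T ^ 2 := by
  classical
  have hT2 : T ≤ T ^ 2 := Nat.le_self_pow (by norm_num) T
  unfold sml
  split_ifs with h1 h2 h3 h4 h5
  · exact (card_union_le _ _).trans (by omega)
  · rw [union_empty]
    omega
  · rw [empty_union]
    omega
  · simp
  · rw [(F.sm p h5.1).2.2]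
    refine card_add_le.trans ((Nat.mul_le_mul h5.2.1 h5.2.2).trans ?_)
    have : T * T = T ^ 2 := by ring
    omega
  · simp

/-- the descent -/
theorem descent (F : Fam ι) {T : ℕ} (hT : 1 ≤ T) : ∀ (n : ℕ) (i : ι), F.rk i = n →
    T < (F.S i).card → ∀ x ∈ F.S i, ∃ p, T < (F.S p).card ∧ ∃ y ∈ der F p i,
      ∃ z ∈ sml F T p, x = y + z := by
  classical
  intro n
  induction n using Nat.strong_induction_on with
  | _ n ih =>
  intro i hi hcard x hx
  have ne_of : ∀ {p j : ι} {y : ℕ}, F.rk j < F.rk i → y ∈ der F p j → i ≠ p := by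
    intro p j y hr hy hip
    have := (der_mem F p _ j rfl y hy).1
    subst hip
    omega
  rcases Nat.lt_or_ge (F.t i) 2 with ht | ht
  · rcases Nat.eq_zero_or_pos (F.t i) with h0 | h0
    · have := F.leaf i h0
      omega
    · have h1 : F.t i = 1 := by omega
      obtain ⟨r1, r2, e⟩ := F.un i h1
      rw [e, mem_union] at hx
      rcases hx with hx | hx
      · rcases Nat.lt_or_ge T (F.S (F.u i)).card with h | h
        · obtain ⟨p, hp, y, hy, z, hz, hxyz⟩ := ih _ (by omega) _ rfl h x hx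
          refine ⟨p, hp, y, ?_, z, hz, hxyz⟩
          rw [der_un F (ne_of r1 hy) h1]
          exact mem_union_left _ hy
        · refine ⟨i, hcard, 0, ?_, x, ?_, (zero_add x).symm⟩
          · rw [der_self]
            exact mem_singleton_self 0
          · unfold sml
            rw [if_pos h1, if_pos h]
            exact mem_union_left _ hx
      · rcases Nat.lt_or_ge T (F.S (F.w i)).card with h | h
        · obtain ⟨p, hp, y, hy, z, hz, hxyz⟩ := ih _ (by omega) _ rfl h x hx
          refine ⟨p, hp, y, ?_, z, hz, hxyz⟩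
          rw [der_un F (ne_of r2 hy) h1]
          exact mem_union_right _ hy
        · refine ⟨i, hcard, 0, ?_, x, ?_, (zero_add x).symm⟩
          · rw [der_self]
            exact mem_singleton_self 0
          · unfold sml
            rw [if_pos h1, if_pos h]
            exact mem_union_right _ hx
  · obtain ⟨r1, r2, e⟩ := F.sm i ht
    have hx' := hx
    rw [e] at hx
    obtain ⟨a, ha, b, hb, rfl⟩ := mem_add.1 hx
    rcases Nat.lt_or_ge T (F.S (F.u i)).card with h | h
    · obtain ⟨p, hp, y, hy, z, hz, hxyz⟩ := ih _ (by omega) _ rfl h a ha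
      refine ⟨p, hp, y + b, ?_, z, hz, by omega⟩
      rw [der_sm F (ne_of r1 hy) ht]
      exact mem_union_left _ (add_mem_add hy hb)
    · rcases Nat.lt_or_ge T (F.S (F.w i)).card with h' | h'
      · obtain ⟨p, hp, y, hy, z, hz, hxyz⟩ := ih _ (by omega) _ rfl h' b hb
        refine ⟨p, hp, a + y, ?_, z, hz, by omega⟩
        rw [der_sm F (ne_of r2 hy) ht]
        exact mem_union_right _ (add_mem_add ha hy)
      · refine ⟨i, hcard, 0, ?_, a + b, ?_, (zero_add _).symm⟩
        · rw [der_self]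
          exact mem_singleton_self 0
        · unfold sml
          rw [if_neg (by omega), if_pos ⟨ht, h, h'⟩]
          exact hx'

/-- the derived contexts are computed by a circuit with four times as many gates -/
theorem der_fam (F : Fam ι) (p : ι) : ∃ F' : Fam (ι × Fin 4), ∀ i, F'.S (i, 3) = der F p i := by
  classical
  let rk' : ι × Fin 4 → ℕ := fun q => 2 * F.rk q.1 + (if q.2 = 3 then 1 else 0)
  let S' : ι × Fin 4 → Finset ℕ := fun q =>
    if q.2 = 0 then F.S q.1
    else if q.2 = 1 then (if 2 ≤ F.t q.1 then der F p (F.u q.1) + F.S (F.w q.1) else ∅)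
    else if q.2 = 2 then (if 2 ≤ F.t q.1 then F.S (F.u q.1) + der F p (F.w q.1) else ∅)
    else der F p q.1
  have e0 : ∀ i, S' (i, 0) = F.S i := fun i => rfl
  have e1 : ∀ i, S' (i, 1) = if 2 ≤ F.t i then der F p (F.u i) + F.S (F.w i) else ∅ :=
    fun i => rfl
  have e2 : ∀ i, S' (i, 2) = if 2 ≤ F.t i then F.S (F.u i) + der F p (F.w i) else ∅ :=
    fun i => rfl
  have e3 : ∀ i, S' (i, 3) = der F p i := fun i => rfl
  have k0 : ∀ i, rk' (i, 0) = 2 * F.rk i := fun i => rfl
  have k1 : ∀ i, rk' (i, 1) = 2 * F.rk i := fun i => rfl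
  have k2 : ∀ i, rk' (i, 2) = 2 * F.rk i := fun i => rfl
  have k3 : ∀ i, rk' (i, 3) = 2 * F.rk i + 1 := fun i => rfl
  obtain ⟨F', h1, h2⟩ := exists_fam rk' S' (by
    rintro ⟨i, c⟩
    have hc : c = 0 ∨ c = 1 ∨ c = 2 ∨ c = 3 := by
      fin_cases c <;> simp
    rcases hc with rfl | rfl | rfl | rfl
    · rcases Nat.lt_or_ge (F.t i) 2 with ht | ht
      · rcases Nat.eq_zero_or_pos (F.t i) with h0 | h0
        · left
          rw [e0]
          exact F.leaf i h0
        · obtain ⟨r1, r2, e⟩ := F.un i (by omega)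
          refine Or.inr ⟨(F.u i, 0), (F.w i, 0), ?_, ?_, Or.inl ?_⟩
          · rw [k0, k0]
            omega
          · rw [k0, k0]
            omega
          · rw [e0, e0, e0]
            exact e
      · obtain ⟨r1, r2, e⟩ := F.sm i ht
        refine Or.inr ⟨(F.u i, 0), (F.w i, 0), ?_, ?_, Or.inr ?_⟩
        · rw [k0, k0]
          omega
        · rw [k0, k0]
          omega
        · rw [e0, e0, e0]
          exact e
    · rcases Nat.lt_or_ge (F.t i) 2 with ht | ht
      · left
        rw [e1, if_neg (by omega)]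
        simp
      · obtain ⟨r1, r2, -⟩ := F.sm i ht
        refine Or.inr ⟨(F.u i, 3), (F.w i, 0), ?_, ?_, Or.inr ?_⟩
        · rw [k3, k1]
          omega
        · rw [k0, k1]
          omega
        · rw [e1, e3, e0, if_pos ht]
    · rcases Nat.lt_or_ge (F.t i) 2 with ht | ht
      · left
        rw [e2, if_neg (by omega)]
        simp
      · obtain ⟨r1, r2, -⟩ := F.sm i ht
        refine Or.inr ⟨(F.u i, 0), (F.w i, 3), ?_, ?_, Or.inr ?_⟩
        · rw [k0, k2]
          omega
        · rw [k3, k2]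
          omega
        · rw [e2, e3, e0, if_pos ht]
    · by_cases hip : i = p
      · left
        rw [e3, hip, der_self, card_singleton]
      · rcases Nat.lt_or_ge (F.t i) 2 with ht | ht
        · rcases Nat.eq_zero_or_pos (F.t i) with h0 | h0
          · left
            rw [e3, der_leaf F hip h0]
            simp
          · obtain ⟨r1, r2, -⟩ := F.un i (by omega)
            refine Or.inr ⟨(F.u i, 3), (F.w i, 3), ?_, ?_, Or.inl ?_⟩
            · rw [k3, k3]
              omega
            · rw [k3, k3]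
              omega
            · rw [e3, e3, e3]
              exact der_un F hip (by omega)
        · refine Or.inr ⟨(i, 1), (i, 2), ?_, ?_, Or.inl ?_⟩
          · rw [k1, k3]
            omega
          · rw [k2, k3]
            omega
          · rw [e3, e1, e2, if_pos ht, if_pos ht]
            exact der_sm F hip ht)
  exact ⟨F', fun i => by rw [h2]; exact e3 i⟩

theorem fam_card {T : ℕ} (hT : 1 ≤ T) : ∀ (b : ℕ) (ι : Type) [Fintype ι] (F : Fam ι) (i : ι),
    ¬ Big T (b + 1) (F.S i) →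
    (F.S i).card ≤ T * (2 * 4 ^ b * T ^ 2 * Fintype.card ι) ^ b := by
  classical
  intro b
  induction b with
  | zero =>
    intro ι _ F i h
    rw [pow_zero, mul_one]
    by_contra hcon
    push Not at hcon
    refine h ⟨F.S i, {0}, hcon, singleton_nonempty 0, ?_⟩
    intro x hx
    obtain ⟨v, hv, w, hw, rfl⟩ := mem_add.1 hx
    rw [mem_singleton] at hw
    subst hw
    rwa [add_zero]
  | succ b ih =>
    intro ι _ F i h
    obtain ⟨D, hD⟩ : ∃ D, D = 2 * 4 ^ (b + 1) * T ^ 2 * Fintype.card ι := ⟨_, rfl⟩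
    rw [← hD]
    have hι : 1 ≤ Fintype.card ι := Fintype.card_pos_iff.2 ⟨i⟩
    have hT2 : 1 ≤ T ^ 2 := Nat.one_le_pow _ _ hT
    have h4 : 1 ≤ 4 ^ (b + 1) := Nat.one_le_pow _ _ (by norm_num)
    have hD2 : Fintype.card ι * (2 * T ^ 2) ≤ D := by
      calc Fintype.card ι * (2 * T ^ 2) = 1 * (Fintype.card ι * (2 * T ^ 2)) := by ring
        _ ≤ 4 ^ (b + 1) * (Fintype.card ι * (2 * T ^ 2)) := Nat.mul_le_mul_right _ h4
        _ = D := by
          rw [hD]
          ring
    have hD1 : 1 ≤ D := by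
      refine le_trans ?_ hD2
      calc 1 = 1 * 1 := rfl
        _ ≤ Fintype.card ι * (2 * T ^ 2) := Nat.mul_le_mul hι (by omega)
    rcases Nat.lt_or_ge T (F.S i).card with hX | hX
    swap
    · exact hX.trans (Nat.le_mul_of_pos_right _ (Nat.one_le_pow _ _ hD1))
    have hder : ∀ p, T < (F.S p).card → (der F p i).card ≤ T * D ^ b := by
      intro p hp
      obtain ⟨F', hF'⟩ := der_fam F p
      have hnb : ¬ Big T (b + 1) (F'.S (i, 3)) := by
        rw [hF']
        intro hbig
        have hp1 : Big T 1 (F.S p) := by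
          refine ⟨F.S p, {0}, hp, singleton_nonempty 0, ?_⟩
          intro x hx
          obtain ⟨v, hv, w, hw, rfl⟩ := mem_add.1 hx
          rw [mem_singleton] at hw
          subst hw
          rwa [add_zero]
        exact h (hbig.add hp1 fun y hy z hz => (der_mem F p _ i rfl y hy).2 z hz)
      have h5 := ih (ι × Fin 4) F' (i, 3) hnb
      rw [hF', Fintype.card_prod, Fintype.card_fin] at h5
      have e : 2 * 4 ^ b * T ^ 2 * (Fintype.card ι * 4) = D := by
        rw [hD, pow_succ]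
        ring
      rwa [e] at h5
    let U : ι → Finset ℕ := fun p => if T < (F.S p).card then der F p i + sml F T p else ∅
    have hUc : ∀ p, (U p).card ≤ T * D ^ b * (2 * T ^ 2) := by
      intro p
      by_cases hp : T < (F.S p).card
      · have e : U p = der F p i + sml F T p := if_pos hp
        rw [e]
        exact card_add_le.trans (Nat.mul_le_mul (hder p hp) (sml_card F hT p))
      · have e : U p = ∅ := if_neg hp
        rw [e]
        simp
    have hsub : F.S i ⊆ univ.biUnion U := by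
      intro x hx
      obtain ⟨p, hp, y, hy, z, hz, e⟩ := descent F hT _ i rfl hX x hx
      refine mem_biUnion.2 ⟨p, mem_univ p, ?_⟩
      have e' : U p = der F p i + sml F T p := if_pos hp
      rw [e', e]
      exact add_mem_add hy hz
    calc (F.S i).card ≤ (univ.biUnion U).card := card_le_card hsub
      _ ≤ ∑ q, (U q).card := card_biUnion_le
      _ ≤ ∑ _q : ι, T * D ^ b * (2 * T ^ 2) := sum_le_sum fun q _ => hUc q
      _ = T * D ^ b * (Fintype.card ι * (2 * T ^ 2)) := by
        rw [sum_const, card_univ, smul_eq_mul]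
        ring
      _ ≤ T * D ^ b * D := Nat.mul_le_mul_left _ hD2
      _ = T * D ^ (b + 1) := by rw [pow_succ, mul_assoc]

theorem main_sharp {A : Set ℕ} {C : ℕ} (hC : 1 ≤ C)
    (hr : ∀ n : ℕ, {p : ℕ × ℕ | p.1 ∈ A ∧ p.2 ∈ A ∧ p.1 + p.2 = n}.ncard ≤ C)
    {δ : ℝ} {N : ℕ} (hd : δ * (N : ℝ) ≤
      (({n : ℕ | ∃ a ∈ A, ∃ b ∈ A, a + b = n} ∩ Set.Iio N).ncard : ℝ))
    {s : ℕ} {S : Fin s → Set ℕ}
    (hS : ∀ i, (∃ a, S i = {a}) ∨ ∃ j k, j < i ∧ k < i ∧
      (S i = S j ∪ S k ∨ S i = {n | ∃ a ∈ S j, ∃ b ∈ S k, a + b = n}))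
    {i : Fin s} (hi : S i ⊆ A) (hi' : A ∩ Set.Iio N ⊆ S i) :
    Real.sqrt (δ * N) ≤ (C : ℝ) ^ 2 * (2 * (C : ℝ) ^ 6 * s) ^ Nat.log 2 C := by
  classical
  have hfin' : ∀ n : ℕ, ∀ i : Fin s, (i : ℕ) = n → (S i).Finite := by
    intro n
    induction n using Nat.strong_induction_on with
    | _ n ihn =>
    intro i hin
    rcases hS i with ⟨a, ha⟩ | ⟨j, k, hj, hk, hu | hu⟩
    · rw [ha]
      exact Set.finite_singleton a
    · rw [hu]
      exact (ihn j (by rw [← hin]; exact hj) j rfl).union (ihn k (by rw [← hin]; exact hk) k rfl)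
    · rw [hu]
      exact (ihn j (by rw [← hin]; exact hj) j rfl).image2 (fun a b => a + b)
        (ihn k (by rw [← hin]; exact hk) k rfl)
  have hfin : ∀ i, (S i).Finite := fun i => hfin' i i rfl
  have hT : ∀ i, (∃ a, (hfin i).toFinset = {a}) ∨ ∃ j k, j < i ∧ k < i ∧
      ((hfin i).toFinset = (hfin j).toFinset ∪ (hfin k).toFinset ∨
        (hfin i).toFinset = (hfin j).toFinset + (hfin k).toFinset) := by
    intro i
    rcases hS i with ⟨a, ha⟩ | ⟨j, k, hj, hk, hu | hu⟩
    · refine Or.inl ⟨a, ?_⟩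
      ext x
      rw [Set.Finite.mem_toFinset, ha, mem_singleton, Set.mem_singleton_iff]
    · refine Or.inr ⟨j, k, hj, hk, Or.inl ?_⟩
      ext x
      rw [Set.Finite.mem_toFinset, hu, mem_union, Set.Finite.mem_toFinset,
        Set.Finite.mem_toFinset, Set.mem_union]
    · refine Or.inr ⟨j, k, hj, hk, Or.inr ?_⟩
      ext x
      rw [Set.Finite.mem_toFinset, hu, mem_add, Set.mem_ofPred_eq]
      constructor
      · rintro ⟨a, ha, b, hb, e⟩
        exact ⟨a, (hfin j).mem_toFinset.2 ha, b, (hfin k).mem_toFinset.2 hb, e⟩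
      · rintro ⟨a, ha, b, hb, e⟩
        exact ⟨a, (hfin j).mem_toFinset.1 ha, b, (hfin k).mem_toFinset.1 hb, e⟩
  have hB : ¬ Big (C ^ 2) (Nat.log 2 C + 1) (hfin i).toFinset := by
    intro hbig
    obtain ⟨n, P, hPc, hP⟩ := hbig.reps (by
      intro b' hb'
      have h1 : 2 ^ b' ≤ C := (Nat.pow_le_pow_right (by norm_num) (by omega)).trans
        (Nat.pow_log_le_self 2 (by omega))
      calc 4 ^ b' = (2 ^ b') ^ 2 := by rw [← pow_mul, mul_comm, pow_mul]; norm_num
        _ ≤ C ^ 2 := Nat.pow_le_pow_left h1 2)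
    have h1 : ((fun x => (x, n - x)) '' (P : Set ℕ)).ncard = P.card := by
      rw [Set.InjOn.ncard_image (fun x _ y _ h => (Prod.ext_iff.1 h).1), Set.ncard_coe_finset]
    have h2 : P.card ≤ C := by
      refine le_trans ?_ (hr n)
      rw [← h1]
      refine Set.ncard_le_ncard ?_ ?_
      · rintro _ ⟨x, hx, rfl⟩
        obtain ⟨h2, x', h3, h4⟩ := hP x (mem_coe.1 hx)
        have e : n - x = x' := by omega
        refine ⟨hi ((hfin i).mem_toFinset.1 h2), ?_, ?_⟩
        · show n - x ∈ A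
          rw [e]
          exact hi ((hfin i).mem_toFinset.1 h3)
        · show x + (n - x) = n
          omega
      · refine (antidiagonal n).finite_toSet.subset ?_
        rintro p ⟨_, _, hp⟩
        exact mem_coe.2 (mem_antidiagonal.2 hp)
    have h3 : C < 2 ^ (Nat.log 2 C + 1) := Nat.lt_pow_succ_log_self (by norm_num) C
    omega
  obtain ⟨F, -, hFS⟩ := exists_fam (fun i : Fin s => (i : ℕ)) (fun i => (hfin i).toFinset) (by
    intro i
    rcases hT i with ⟨a, ha⟩ | h
    · left
      rw [ha, card_singleton]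
    · exact Or.inr h)
  have hB' : ¬ Big (C ^ 2) (Nat.log 2 C + 1) (F.S i) := by
    rw [hFS]
    exact hB
  have h1 := fam_card (Nat.one_le_pow 2 C hC) (Nat.log 2 C) (Fin s) F i hB'
  have h2 : (A ∩ Set.Iio N).ncard ≤ C ^ 2 * (2 * C ^ 6 * s) ^ Nat.log 2 C := by
    refine (Set.ncard_le_ncard hi' (hfin i)).trans ?_
    rw [Set.ncard_eq_toFinset_card _ (hfin i)]
    rw [hFS, Fintype.card_fin] at h1
    refine le_trans h1 (Nat.mul_le_mul_left _ (Nat.pow_le_pow_left ?_ _))
    have h5 : 4 ^ Nat.log 2 C ≤ C ^ 2 := by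
      calc 4 ^ Nat.log 2 C = (2 ^ Nat.log 2 C) ^ 2 := by
            rw [← pow_mul, mul_comm, pow_mul]
            norm_num
        _ ≤ C ^ 2 := Nat.pow_le_pow_left (Nat.pow_log_le_self 2 (by omega)) 2
    calc 2 * 4 ^ Nat.log 2 C * (C ^ 2) ^ 2 * s ≤ 2 * C ^ 2 * (C ^ 2) ^ 2 * s := by gcongr
      _ = 2 * C ^ 6 * s := by ring
  have h3 : (({n : ℕ | ∃ a ∈ A, ∃ b ∈ A, a + b = n} ∩ Set.Iio N).ncard : ℝ) ≤
      ((C : ℝ) ^ 2 * (2 * (C : ℝ) ^ 6 * s) ^ Nat.log 2 C) ^ 2 := by
    have h4 := (sum_card A N).trans (Nat.pow_le_pow_left h2 2)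
    exact_mod_cast h4
  rw [← Real.sqrt_sq (by positivity : (0 : ℝ) ≤
    (C : ℝ) ^ 2 * (2 * (C : ℝ) ^ 6 * s) ^ Nat.log 2 C)]
  exact Real.sqrt_le_sqrt (hd.trans h3)

end Pool.Agent.DB70
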